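import Pool.Agent.Lib.MP_b5021c_nt.IfaceL2
import Pool.Agent.Lib.MP_b5021c_nt.IfaceS2

/-!
# Board b5, row T_FL2: the choice of the ray, with both drop bounds
-/

namespace Pool.Agent.B5.H84

open Pool.Agent.B5

theorem fl2 (h1 : E2S) (h2 : F5S) (h3 : LMNS) (h4 : DRBS) (h7 : Dr7S) (h5 : RkUSS) : Fl2S := by
  intro O _ _ _ _ P L _ _ _ _ _ phi D eta hD htwo hne
  obtain ⟨hz, -, -, -, hrk, -⟩ := h1 O P L phi D hD htwo
  have hex : ∃ b, Ray D b := by
    by_contra hcon
    push Not at hcon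
    have h0 : {b | Ray D b} = (∅ : Set L) := by
      ext b
      simp [hcon b]
    have h00 : rk (∅ : Set L) = 0 := by
      unfold rk
      rw [Submodule.span_empty]
      exact finrank_bot ℤ L
    rw [h0, h00] at hrk
    omega
  obtain ⟨g, S, hRay, hdis, hnot, hfin, hprod⟩ := h2 O P L phi D eta hD.inj hD.bin hex hrk
  have hbin : ∀ i, Bin phi (S i) := fun i => hD.bin _ (hRay i).1
  refine ⟨S 0, g, hRay 0, ?_, ?_, ?_, ?_⟩
  · intro i0 h
    have h6 := h5 O P L phi D (S 0) i0 h (eta (S 0)) hD.inj hD.bin (hbin 0)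
    omega
  · exact h4 O P L phi D eta g S hD.inj hD.bin hD.st hz hRay hdis hprod (hne _ (hRay 0))
  · rcases Nat.lt_or_ge 4 g with hg | hg
    · exact Or.inr (h7 O P L phi D eta g S hD.inj hD.bin hD.st hz hRay hdis hprod
        (hne _ (hRay 0)) hg)
    · exact Or.inl hg
  · intro hg e he i0 h
    have hj : (0 : Fin (g + 1)) ≠ ⟨1, by omega⟩ := by
      intro hcon
      have := congrArg Fin.val hcon
      simp at this
    have hall : ∀ a ∈ supp D, a ∈ US e (S 0) D :=
      h3 O P L phi D (S 0) (S ⟨1, by omega⟩) (eta (S 0)) (eta (S ⟨1, by omega⟩)) e hD.inj hD.bin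
        (hRay _) (hRay _) (hnot _ _ hj) (hnot _ _ hj.symm) he
    have hle : Module.finrank ℤ L ≤ Module.finrank ℤ (US e (S 0) D) := by
      rw [← hD.spn]
      exact Submodule.finrank_mono (Submodule.span_le.mpr hall)
    have hge : Module.finrank ℤ (US e (S 0) D) ≤ Module.finrank ℤ L := Submodule.finrank_le _
    have h6 := h5 O P L phi D (S 0) i0 h e hD.inj hD.bin (hbin 0)
    omega

end Pool.Agent.B5.H84
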